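import Pool.Agent.H157R3.DP.Series

/-!
# Growth of the coefficients of `(1 - x)^r B(x)`
-/

set_option autoImplicit false

open Finset PowerSeries

namespace Pool.Agent.Y415.DP

open Pool.Agent.H157R3.DP

/-- Comparison of `CC r = exp (∑ s_{k-1} x^k / k)` with the powers of a smaller series. -/
theorem pow_le {r : ℕ} (hr : 1 ≤ r) (w : ℕ → ℝ) (hw0 : w 0 = 0) (hw : ∀ k, 0 ≤ w k)
    (hws : ∀ k : ℕ, ((k : ℝ) + 1) * w (k + 1) ≤ ss r k) (m : ℕ) :
    ∀ n, coeff n ((PowerSeries.mk w) ^ m) ≤ m.factorial * coeff n (CC r) := by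
  induction m with
  | zero =>
    intro n
    rw [pow_zero, coeff_one]
    simp only [Nat.factorial_zero, Nat.cast_one, one_mul]
    split_ifs with h
    · rw [h, coeff_CC_zero]
    · exact coeff_CC_nonneg hr n
  | succ m ih =>
    intro n
    rcases n with _ | n
    · have h1 : coeff 0 ((PowerSeries.mk w) ^ (m + 1)) = 0 := by
        rw [coeff_zero_eq_constantCoeff, map_pow, ← coeff_zero_eq_constantCoeff_apply, coeff_mk,
          hw0, zero_pow (Nat.succ_ne_zero m)]
      rw [h1]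
      exact mul_nonneg (Nat.cast_nonneg _) (coeff_CC_nonneg hr 0)
    · have h1 : d⁄dX ℝ ((PowerSeries.mk w) ^ (m + 1)) =
          C ((m : ℝ) + 1) * (d⁄dX ℝ (PowerSeries.mk w) * (PowerSeries.mk w) ^ m) := by
        rw [Derivation.leibniz_pow]
        simp only [smul_eq_mul, Nat.add_sub_cancel, nsmul_eq_mul]
        have h3 : ((m + 1 : ℕ) : PowerSeries ℝ) = C ((m : ℝ) + 1) := by
          rw [map_add, map_one, map_natCast]; push_cast; rfl
        rw [h3]
        ring
      have h2 := congrArg (coeff n) h1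
      rw [coeff_derivative, coeff_C_mul, coeff_mul] at h2
      have h3 : ∑ ij ∈ antidiagonal n, coeff ij.1 (d⁄dX ℝ (PowerSeries.mk w)) *
          coeff ij.2 ((PowerSeries.mk w) ^ m) ≤
          ∑ ij ∈ antidiagonal n, ss r ij.1 * (m.factorial * coeff ij.2 (CC r)) := by
        refine Finset.sum_le_sum fun ij _ => ?_
        rw [coeff_derivative, coeff_mk]
        have h4 := hws ij.1
        have h5 : 0 ≤ w (ij.1 + 1) * ((ij.1 : ℝ) + 1) :=
          mul_nonneg (hw _) (by positivity)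
        calc w (ij.1 + 1) * ((ij.1 : ℝ) + 1) * coeff ij.2 ((PowerSeries.mk w) ^ m)
            ≤ w (ij.1 + 1) * ((ij.1 : ℝ) + 1) * (m.factorial * coeff ij.2 (CC r)) :=
              mul_le_mul_of_nonneg_left (ih ij.2) h5
          _ ≤ ss r ij.1 * (m.factorial * coeff ij.2 (CC r)) := by
              refine mul_le_mul_of_nonneg_right (by linarith) ?_
              exact mul_nonneg (Nat.cast_nonneg _) (coeff_CC_nonneg hr _)
      have h6 : ∑ ij ∈ antidiagonal n, ss r ij.1 * (m.factorial * coeff ij.2 (CC r)) =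
          m.factorial * (coeff (n + 1) (CC r) * ((n : ℝ) + 1)) := by
        rw [coeff_CC_rec hr n, Finset.mul_sum]
        exact Finset.sum_congr rfl fun ij _ => by ring
      rw [h6] at h3
      have hn : (0 : ℝ) < (n : ℝ) + 1 := by positivity
      have hm : (0 : ℝ) ≤ (m : ℝ) + 1 := by positivity
      have h7 : coeff (n + 1) ((PowerSeries.mk w) ^ (m + 1)) * ((n : ℝ) + 1) ≤
          ((m + 1).factorial * coeff (n + 1) (CC r)) * ((n : ℝ) + 1) := by
        rw [h2]
        calc ((m : ℝ) + 1) * ∑ ij ∈ antidiagonal n, coeff ij.1 (d⁄dX ℝ (PowerSeries.mk w)) *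
              coeff ij.2 ((PowerSeries.mk w) ^ m)
            ≤ ((m : ℝ) + 1) * (m.factorial * (coeff (n + 1) (CC r) * ((n : ℝ) + 1))) :=
              mul_le_mul_of_nonneg_left h3 hm
          _ = _ := by
              rw [Nat.factorial_succ]
              push_cast
              ring
      exact le_of_mul_le_mul_right h7 hn

/-- the linear term -/
theorem CC_ge {r : ℕ} (hr : 1 ≤ r) (n : ℕ) (hn : 1 ≤ n) :
    (r : ℝ) * (1 - 1 / n) ≤ coeff n (CC r) := by
  obtain ⟨k, rfl⟩ : ∃ k, n = k + 1 := ⟨n - 1, by omega⟩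
  have h := pow_le hr (fun k => ss r (k - 1) / k) (by simp) (fun k => by
    exact div_nonneg (ss_nonneg _ _) (Nat.cast_nonneg _)) (fun k => by
      have : ((k : ℝ) + 1) ≠ 0 := by positivity
      rw [Nat.add_sub_cancel]
      push_cast
      rw [mul_div_cancel₀ _ this]) 1 (k + 1)
  rw [pow_one, coeff_mk, Nat.factorial_one, Nat.cast_one, one_mul, Nat.add_sub_cancel] at h
  refine le_trans ?_ h
  have hk : (0 : ℝ) < ((k + 1 : ℕ) : ℝ) := by positivity
  rw [le_div_iff₀ hk]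
  have h2 : (r : ℝ) * (1 - 1 / ((k + 1 : ℕ) : ℝ)) * ((k + 1 : ℕ) : ℝ) = r * k := by
    field_simp
    push_cast
    ring
  rw [h2]
  unfold ss
  split_ifs <;> linarith

/-- the coefficients of the powers of `θ x^K / (1 - x)` -/
theorem coeff_tail (θ : ℝ) (K m N : ℕ) :
    coeff (N + K * (m + 1)) ((PowerSeries.mk (fun k => if K ≤ k then θ else 0)) ^ (m + 1)) =
      θ ^ (m + 1) * ((m + N).choose m : ℝ) := by
  have h1 : (PowerSeries.mk (fun k => if K ≤ k then θ else 0)) =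
      C θ * (X ^ K * PowerSeries.mk (1 : ℕ → ℝ)) := by
    ext n
    rw [coeff_mk, coeff_C_mul, coeff_X_pow_mul']
    split_ifs <;> simp
  rw [h1, mul_pow, mul_pow, ← pow_mul, mk_one_pow_eq_mk_choose_add, ← map_pow, coeff_C_mul,
    coeff_X_pow_mul, coeff_mk]

/-- the lower bound -/
theorem CC_ge' {r : ℕ} (hr : 1 ≤ r) (K m N : ℕ) (hK : 1 ≤ K) :
    ((r : ℝ) * (1 - 1 / K)) ^ (m + 1) * ((N : ℝ) + 1) ^ m / (m.factorial * (m + 1).factorial) ≤
      coeff (N + K * (m + 1)) (CC r) := by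
  have hK0 : (0 : ℝ) < K := by exact_mod_cast hK
  have hK1 : (1 : ℝ) / K ≤ 1 := by
    rw [div_le_one hK0]; exact_mod_cast hK
  have hθ : 0 ≤ (r : ℝ) * (1 - 1 / K) := mul_nonneg (Nat.cast_nonneg _) (by linarith)
  have h := pow_le hr (fun k => if K ≤ k then (r : ℝ) * (1 - 1 / K) else 0)
    (by rw [if_neg (by omega)]) (fun k => by
      split_ifs
      · exact hθ
      · exact le_rfl)
    (fun k => by
      split_ifs with hk
      · have h1 : (K : ℝ) ≤ (k : ℝ) + 1 := by exact_mod_cast hk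
        have h2 : (1 : ℝ) ≤ ((k : ℝ) + 1) * (1 / K) := by
          rw [mul_one_div, le_div_iff₀ hK0]; linarith
        have h3 : ((k : ℝ) + 1) * ((r : ℝ) * (1 - 1 / K)) ≤ r * k := by
          have hr0 : (0 : ℝ) ≤ r := Nat.cast_nonneg _
          nlinarith
        refine h3.trans ?_
        unfold ss
        split_ifs <;> linarith
      · rw [mul_zero]; exact ss_nonneg _ _) (m + 1) (N + K * (m + 1))
  rw [coeff_tail] at h
  have h4 := Nat.pow_le_choose (α := ℝ) m (m + N)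
  have e1 : m + N + 1 - m = N + 1 := by omega
  rw [e1] at h4
  push_cast at h4
  have hf : (0 : ℝ) < (m + 1).factorial := by exact_mod_cast Nat.factorial_pos _
  have hf' : (0 : ℝ) < m.factorial := by exact_mod_cast Nat.factorial_pos _
  have h5 : ((r : ℝ) * (1 - 1 / K)) ^ (m + 1) * (((N : ℝ) + 1) ^ m / m.factorial) ≤
      (m + 1).factorial * coeff (N + K * (m + 1)) (CC r) :=
    (mul_le_mul_of_nonneg_left h4 (pow_nonneg hθ _)).trans h
  rw [div_le_iff₀ (by positivity)]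
  have h6 := mul_le_mul_of_nonneg_left h5 hf'.le
  have e2 : (m.factorial : ℝ) * (((r : ℝ) * (1 - 1 / K)) ^ (m + 1) *
      (((N : ℝ) + 1) ^ m / m.factorial)) =
      ((r : ℝ) * (1 - 1 / K)) ^ (m + 1) * ((N : ℝ) + 1) ^ m := by
    field_simp
  rw [e2] at h6
  linarith

/-- `m! ≤ e m (m / e)^m` -/
theorem log_fact (m : ℕ) : Real.log ((m + 1).factorial : ℝ) ≤
    1 + Real.log ((m : ℝ) + 1) + ((m : ℝ) + 1) * Real.log ((m : ℝ) + 1) - ((m : ℝ) + 1) := by
  induction m with
  | zero => simp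
  | succ m ih =>
    have h0 : (0 : ℝ) < (m : ℝ) + 1 := by positivity
    have h1 : (0 : ℝ) < (m : ℝ) + 2 := by positivity
    have hf : (0 : ℝ) < (m + 1).factorial := by exact_mod_cast Nat.factorial_pos _
    rw [Nat.factorial_succ (m + 1)]
    push_cast
    have e1 : (m : ℝ) + 1 + 1 = m + 2 := by ring
    rw [e1, Real.log_mul h1.ne' hf.ne']
    have h2 := Real.one_sub_inv_le_log_of_pos (div_pos h1 h0)
    rw [Real.log_div h1.ne' h0.ne', inv_div] at h2
    have h3 : 1 - ((m : ℝ) + 1) / (m + 2) = 1 / (m + 2) := by field_simp; ring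
    rw [h3] at h2
    have h4 : 1 ≤ ((m : ℝ) + 2) * (Real.log (m + 2) - Real.log (m + 1)) := by
      have := mul_le_mul_of_nonneg_left h2 h1.le
      rwa [mul_one_div, div_self h1.ne'] at this
    nlinarith

theorem exp_le_one_sub {δ : ℝ} (h0 : 0 ≤ δ) (h1 : δ ≤ 1 / 2) : Real.exp (-(2 * δ)) ≤ 1 - δ := by
  rw [Real.exp_neg, inv_le_comm₀ (Real.exp_pos _) (by linarith)]
  refine le_trans ?_ (Real.add_one_le_exp (2 * δ))
  rw [inv_le_iff_one_le_mul₀ (by linarith)]
  nlinarith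

/-- the growth of the coefficients -/
theorem CC_growth (ε : ℝ) (hε : 0 < ε) : ∃ N : ℕ, ∀ r : ℕ, 1 ≤ r → ∀ n : ℕ, N * r ≤ n → 1 ≤ n →
    Real.exp ((2 - ε) * Real.sqrt ((r : ℝ) * n)) ≤ coeff n (CC r) := by
  -- it suffices to treat `ε ≤ 1`
  wlog hε1 : ε ≤ 1 with H
  · obtain ⟨N, hN⟩ := H 1 one_pos le_rfl
    refine ⟨N, fun r hr n hn hn1 => le_trans ?_ (hN r hr n hn hn1)⟩
    refine Real.exp_le_exp.mpr (mul_le_mul_of_nonneg_right ?_ (Real.sqrt_nonneg _))
    push Not at hε1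
    linarith
  obtain ⟨δ, hδ⟩ : ∃ δ : ℝ, δ = ε / 8 := ⟨_, rfl⟩
  have hδ0 : 0 < δ := by rw [hδ]; positivity
  have hδ1 : δ ≤ 1 / 8 := by rw [hδ]; linarith
  obtain ⟨K, hK⟩ := exists_nat_gt (1 / δ)
  have hK0 : (0 : ℝ) < K := lt_trans (by positivity) hK
  have hK1 : 1 ≤ K := by exact_mod_cast hK0
  have hKδ : 1 / (K : ℝ) ≤ δ := by
    rw [div_le_iff₀ hK0]
    rw [div_lt_iff₀ hδ0] at hK
    linarith
  -- exponential beats polynomial
  have hexp := (Real.tendsto_exp_div_pow_atTop 4).eventually_ge_atTop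
    (4 * Real.exp 4 * (2 / ε) ^ 4)
  obtain ⟨Y, hY⟩ := Filter.eventually_atTop.mp hexp
  obtain ⟨N0, hN0⟩ := exists_nat_ge (max 4 (max ((K / δ) ^ 2) ((2 / ε * max Y 1) ^ 2)))
  have hN1 : (4 : ℝ) ≤ N0 := (le_max_left _ _).trans hN0
  have hN2 : ((K : ℝ) / δ) ^ 2 ≤ N0 := (le_max_left _ _).trans ((le_max_right _ _).trans hN0)
  have hN3 : (2 / ε * max Y 1) ^ 2 ≤ N0 := (le_max_right _ _).trans ((le_max_right _ _).trans hN0)
  refine ⟨N0, fun r hr n hn hn1 => ?_⟩
  have hrR : (1 : ℝ) ≤ r := by exact_mod_cast hr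
  have hnR : (N0 : ℝ) * r ≤ n := by exact_mod_cast hn
  have hn4 : (4 : ℝ) ≤ n := by nlinarith
  have hrn : (r : ℝ) ≤ n := by nlinarith
  have hn0 : (0 : ℝ) < n := by linarith
  obtain ⟨R, hR⟩ : ∃ R : ℝ, R = Real.sqrt ((r : ℝ) * n) := ⟨_, rfl⟩
  have hRsq : R ^ 2 = (r : ℝ) * n := by rw [hR, Real.sq_sqrt (by positivity)]
  have hR0 : 0 ≤ R := by rw [hR]; exact Real.sqrt_nonneg _
  rw [← hR]
  have hRn : R ≤ n := by
    have : R ^ 2 ≤ (n : ℝ) ^ 2 := by rw [hRsq]; nlinarith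
    exact (pow_le_pow_iff_left₀ hR0 hn0.le two_ne_zero).mp this
  have hR2 : 2 ≤ R := by
    have : (2 : ℝ) ^ 2 ≤ R ^ 2 := by rw [hRsq]; nlinarith
    exact (pow_le_pow_iff_left₀ (by norm_num) hR0 two_ne_zero).mp this
  -- `m + 1 = ⌊R⌋`
  obtain ⟨m, hm⟩ : ∃ m : ℕ, ⌊R⌋₊ = m + 1 := by
    have : 2 ≤ ⌊R⌋₊ := Nat.le_floor (by exact_mod_cast hR2)
    exact ⟨⌊R⌋₊ - 1, by omega⟩
  have hm1 : (m : ℝ) + 1 ≤ R := by
    have := Nat.floor_le hR0
    rw [hm] at this
    exact_mod_cast this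
  have hm2 : R < (m : ℝ) + 2 := by
    have := Nat.lt_floor_add_one R
    rw [hm] at this
    push_cast at this
    linarith
  have hKm : (K : ℝ) * ((m : ℝ) + 1) ≤ δ * n := by
    have h1 : (K : ℝ) * R ≤ δ * n := by
      have h2 : ((K : ℝ) / δ) ^ 2 * r ≤ n := by
        calc ((K : ℝ) / δ) ^ 2 * r ≤ N0 * r := mul_le_mul_of_nonneg_right hN2 (by positivity)
          _ ≤ n := hnR
      have h3 : ((K : ℝ) * R) ^ 2 ≤ (δ * n) ^ 2 := by
        rw [mul_pow, hRsq, mul_pow]
        have h4 : (K : ℝ) ^ 2 * r ≤ δ ^ 2 * n := by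
          have h5 := mul_le_mul_of_nonneg_left h2 (by positivity : 0 ≤ δ ^ 2)
          have h6 : δ ^ 2 * (((K : ℝ) / δ) ^ 2 * r) = (K : ℝ) ^ 2 * r := by
            field_simp
          rwa [h6] at h5
        calc (K : ℝ) ^ 2 * (r * n) = ((K : ℝ) ^ 2 * r) * n := by ring
          _ ≤ (δ ^ 2 * n) * n := mul_le_mul_of_nonneg_right h4 hn0.le
          _ = δ ^ 2 * (n : ℝ) ^ 2 := by ring
      exact (pow_le_pow_iff_left₀ (by positivity) (by positivity) two_ne_zero).mp h3
    exact (mul_le_mul_of_nonneg_left hm1 hK0.le).trans h1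
  have hKmn : K * (m + 1) ≤ n := by
    have h1 : ((K * (m + 1) : ℕ) : ℝ) ≤ n := by
      push_cast
      refine hKm.trans ?_
      nlinarith
    exact_mod_cast h1
  obtain ⟨N, hN⟩ : ∃ N, n = N + K * (m + 1) := ⟨n - K * (m + 1), by omega⟩
  have hNR : (n : ℝ) = N + K * ((m : ℝ) + 1) := by
    rw [hN]; push_cast; ring
  have hN1 : (1 - δ) * n ≤ (N : ℝ) + 1 := by linarith
  have hN2' : (N : ℝ) + 1 ≤ 2 * n := by
    have : 0 ≤ (K : ℝ) * ((m : ℝ) + 1) := by positivity
    linarith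
  have hmain := CC_ge' hr K m N hK1
  rw [← hN] at hmain
  refine le_trans ?_ hmain
  have hθ : (r : ℝ) * (1 - δ) ≤ r * (1 - 1 / K) :=
    mul_le_mul_of_nonneg_left (by linarith) (by positivity)
  have hθ0 : 0 < (r : ℝ) * (1 - δ) := by
    have : 0 < 1 - δ := by linarith
    positivity
  have hθ1 : 0 < (r : ℝ) * (1 - 1 / K) := hθ0.trans_le hθ
  have hf : (0 : ℝ) < (m + 1).factorial := by exact_mod_cast Nat.factorial_pos _
  have hf' : (0 : ℝ) < m.factorial := by exact_mod_cast Nat.factorial_pos _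
  have hNp : (0 : ℝ) < (N : ℝ) + 1 := by positivity
  have hM : (0 : ℝ) < (m : ℝ) + 1 := by positivity
  rw [← Real.le_log_iff_exp_le (by positivity)]
  rw [Real.log_div (by positivity) (by positivity), Real.log_mul (by positivity) (by positivity),
    Real.log_mul (by positivity) (by positivity), Real.log_pow, Real.log_pow]
  push_cast
  have hlf := log_fact m
  have hlf' : Real.log (m.factorial : ℝ) = Real.log ((m + 1).factorial : ℝ) - Real.log ((m : ℝ) + 1) := by
    rw [Nat.factorial_succ]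
    push_cast
    rw [Real.log_mul hM.ne' hf'.ne']
    ring
  rw [hlf']
  -- logarithms
  have hlog1 : Real.log r + Real.log (1 - δ) ≤ Real.log (r * (1 - 1 / K)) := by
    rw [← Real.log_mul (by positivity) (by linarith)]
    exact Real.log_le_log hθ0 hθ
  have hlog2 : Real.log (1 - δ) + Real.log n ≤ Real.log ((N : ℝ) + 1) := by
    rw [← Real.log_mul (by linarith) hn0.ne']
    exact Real.log_le_log (mul_pos (by linarith) hn0) hN1
  have hlogδ : -(2 * δ) ≤ Real.log (1 - δ) := by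
    rw [Real.le_log_iff_exp_le (by linarith)]
    exact exp_le_one_sub hδ0.le (by linarith)
  have hlog3 : 2 * Real.log ((m : ℝ) + 1) ≤ Real.log r + Real.log n := by
    rw [← Real.log_mul (by positivity) hn0.ne', ← hRsq, Real.log_pow]
    push_cast
    have := Real.log_le_log hM hm1
    linarith
  have hlog4 : Real.log ((N : ℝ) + 1) ≤ Real.log (2 * n) := Real.log_le_log hNp hN2'
  have hlog5 : Real.log ((m : ℝ) + 1) ≤ Real.log n := Real.log_le_log hM (hm1.trans hRn)
  have hlog6 : Real.log (2 * n) ≤ Real.log 2 + Real.log n := by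
    rw [Real.log_mul (by norm_num) hn0.ne']
  have hl2 : Real.log 2 ≤ 1 := by
    have := Real.log_two_lt_d9
    linarith
  -- the exponential beats the polynomial
  have hpoly : 4 + Real.log 4 + 2 * Real.log n ≤ ε / 2 * R := by
    have hRn' : Real.sqrt n ≤ R := by
      rw [hR]
      exact Real.sqrt_le_sqrt (by nlinarith)
    have hsn : (2 / ε * max Y 1) ≤ Real.sqrt n := by
      refine Real.le_sqrt_of_sq_le (hN3.trans ?_)
      nlinarith
    have hmax : (1 : ℝ) ≤ max Y 1 := le_max_right _ _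
    have hy : max Y 1 ≤ ε / 2 * Real.sqrt n := by
      have h1 := mul_le_mul_of_nonneg_left hsn (by positivity : 0 ≤ ε / 2)
      have h2 : ε / 2 * (2 / ε * max Y 1) = max Y 1 := by field_simp
      rwa [h2] at h1
    have h3 := hY (ε / 2 * Real.sqrt n) ((le_max_left _ _).trans hy)
    have hx0 : 0 < ε / 2 * Real.sqrt n := lt_of_lt_of_le (by linarith) hy
    rw [le_div_iff₀ (by positivity)] at h3
    have h4 : 4 * Real.exp 4 * (2 / ε) ^ 4 * (ε / 2 * Real.sqrt n) ^ 4 =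
        4 * Real.exp 4 * (n : ℝ) ^ 2 := by
      have h5 : Real.sqrt n ^ 4 = (n : ℝ) ^ 2 := by
        have : Real.sqrt n ^ 4 = (Real.sqrt n ^ 2) ^ 2 := by ring
        rw [this, Real.sq_sqrt hn0.le]
      rw [mul_pow, h5]
      field_simp
    rw [h4] at h3
    have h6 := Real.log_le_log (by positivity) h3
    rw [Real.log_exp, Real.log_mul (by positivity) (by positivity),
      Real.log_mul (by norm_num) (Real.exp_ne_zero _), Real.log_exp, Real.log_pow] at h6
    push_cast at h6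
    have h7 : ε / 2 * Real.sqrt n ≤ ε / 2 * R := mul_le_mul_of_nonneg_left hRn' (by positivity)
    linarith
  have hlog4' : Real.log 4 = 2 * Real.log 2 := by
    rw [show (4 : ℝ) = 2 ^ 2 by norm_num, Real.log_pow]; push_cast; ring
  have hl2' : 0 < Real.log 2 := Real.log_pos (by norm_num)
  -- main computation
  obtain ⟨M, hMdef⟩ : ∃ M : ℝ, M = (m : ℝ) + 1 := ⟨_, rfl⟩
  have hm' : (m : ℝ) = M - 1 := by linarith
  rw [← hMdef] at hlf hM hm1 hlog3 hlog5 ⊢
  rw [hm'] at hm2 ⊢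
  have hM1 : 1 ≤ M := by rw [hMdef]; linarith [Nat.cast_nonneg (α := ℝ) m]
  have q1 : M * (Real.log r + Real.log (1 - δ)) ≤ M * Real.log (r * (1 - 1 / K)) :=
    mul_le_mul_of_nonneg_left hlog1 (by linarith)
  have q2 : M * (Real.log (1 - δ) + Real.log n) ≤ M * Real.log ((N : ℝ) + 1) :=
    mul_le_mul_of_nonneg_left hlog2 (by linarith)
  have q3 : M * (2 * Real.log M) ≤ M * (Real.log r + Real.log n) :=
    mul_le_mul_of_nonneg_left hlog3 (by linarith)
  have q4 : M * (-(2 * δ)) ≤ M * Real.log (1 - δ) :=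
    mul_le_mul_of_nonneg_left hlogδ (by linarith)
  have q5 : (2 - 4 * δ) * (R - 1) ≤ (2 - 4 * δ) * M :=
    mul_le_mul_of_nonneg_left (by linarith) (by linarith)
  have q6 : 4 * δ * R = ε / 2 * R := by rw [hδ]; ring
  linarith [q1, q2, q3, q4, q5, q6, hlf, hlog4, hlog5, hlog6, hpoly, hlog4', hδ0]

end Pool.Agent.Y415.DP
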